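import Pool.Agent.W2helper5.QD.Stm

/-!
# Project QD, piece LUALL: monotonicity near all zeros, by rotation
-/

set_option autoImplicit false

namespace Pool.Agent.W2helper11.QD

open MeasureTheory Set Pool.V11275.Quad Pool.Agent.Helper717.Hull1 Pool.Agent.Helper717.Hull2
open Pool.Agent.W2helper5.QD

theorem rotA_smul (φ c : ℝ) (x : E2) : rotA φ (c • x) = c • rotA φ x := by
  apply ext2
  · simp [rotA]; ring
  · simp [rotA]; ring

theorem near_rot {m : ℕ} {η : ℝ} {R : Set E2} (hP : rotA (2 * al m) '' (P m) = P m)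
    (h : Near m η R) : Near m η (rotA (2 * al m) '' R) := by
  refine ⟨fun x hx => ?_, ?_⟩
  · rw [← hP] at hx
    obtain ⟨y, hy, rfl⟩ := hx
    rw [← rotA_smul]
    exact ⟨_, h.1 y hy, rfl⟩
  · rintro _ ⟨x, hx, rfl⟩
    obtain ⟨y, hy, rfl⟩ := h.2 x hx
    refine ⟨rotA (2 * al m) y, ?_, rotA_smul _ _ _⟩
    rw [← hP]
    exact ⟨y, hy, rfl⟩

theorem LUALL : P_LUALL := by
  intro hB hR hS m hm hodd η δ h0 R hRb hRn j
  have hrot := (hR m hm).2.2.2.2.2.1
  have mpos : (0 : ℝ) < m := by
    have : 0 < m := by omega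
    exact_mod_cast this
  -- the property at a centre
  have stepA : ∀ c : ℝ, (∀ R : Set E2, Body R → Near m η R → InjOn (G R) (Icc (c - δ) (c + δ))) →
      ∀ R : Set E2, Body R → Near m η R →
        InjOn (G R) (Icc (c - 2 * al m - δ) (c - 2 * al m + δ)) := by
    intro c hc R hRb hRn x hx y hy hxy
    have hs := hS hB R hRb
    have h1 := hc _ (hs.1 (2 * al m)) (near_rot hrot hRn)
    have h2 : x + 2 * al m = y + 2 * al m := by
      apply h1
      · exact ⟨by linarith [hx.1], by linarith [hx.2]⟩
      · exact ⟨by linarith [hy.1], by linarith [hy.2]⟩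
      · rw [(hs.2.2.1 _ _).2, (hs.2.2.1 _ _).2]
        exact hxy
    linarith
  have stepB : ∀ c : ℝ, (∀ R : Set E2, Body R → Near m η R → InjOn (G R) (Icc (c - δ) (c + δ))) →
      ∀ R : Set E2, Body R → Near m η R →
        InjOn (G R) (Icc (c + Real.pi / 2 - δ) (c + Real.pi / 2 + δ)) := by
    intro c hc R hRb hRn x hx y hy hxy
    have hb := (hB R hRb).2.2.2.2.2
    have ex := hb (x - Real.pi / 2)
    have ey := hb (y - Real.pi / 2)
    rw [sub_add_cancel] at ex ey
    have h2 : x - Real.pi / 2 = y - Real.pi / 2 := by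
      apply hc R hRb hRn
      · exact ⟨by linarith [hx.1], by linarith [hx.2]⟩
      · exact ⟨by linarith [hy.1], by linarith [hy.2]⟩
      · rw [ex, ey] at hxy
        linarith
    linarith
  have stepC : ∀ c : ℝ, (∀ R : Set E2, Body R → Near m η R → InjOn (G R) (Icc (c - δ) (c + δ))) →
      ∀ R : Set E2, Body R → Near m η R →
        InjOn (G R) (Icc (c - Real.pi / 2 - δ) (c - Real.pi / 2 + δ)) := by
    intro c hc R hRb hRn x hx y hy hxy
    have hb := (hB R hRb).2.2.2.2.2
    have ex := hb x
    have ey := hb y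
    have h2 : x + Real.pi / 2 = y + Real.pi / 2 := by
      apply hc R hRb hRn
      · exact ⟨by linarith [hx.1], by linarith [hx.2]⟩
      · exact ⟨by linarith [hy.1], by linarith [hy.2]⟩
      · rw [ex, ey, hxy]
    linarith
  have A : ∀ n : ℕ, ∀ R : Set E2, Body R → Near m η R →
      InjOn (G R) (Icc (-(2 * al m * n) - δ) (-(2 * al m * n) + δ)) := by
    intro n
    induction n with
    | zero =>
      intro R hRb hRn
      have := h0 R hRb hRn
      simpa using this
    | succ n ih =>
      intro R hRb hRn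
      have := stepA _ ih R hRb hRn
      have e : -(2 * al m * n) - 2 * al m = -(2 * al m * ((n + 1 : ℕ) : ℝ)) := by
        push_cast; ring
      rwa [e] at this
  have Bp : ∀ n k : ℕ, ∀ R : Set E2, Body R → Near m η R →
      InjOn (G R) (Icc (-(2 * al m * n) + Real.pi / 2 * k - δ)
        (-(2 * al m * n) + Real.pi / 2 * k + δ)) := by
    intro n k
    induction k with
    | zero =>
      intro R hRb hRn
      have := A n R hRb hRn
      simpa using this
    | succ k ih =>
      intro R hRb hRn
      have := stepB _ ih R hRb hRn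
      have e : -(2 * al m * n) + Real.pi / 2 * k + Real.pi / 2 =
          -(2 * al m * n) + Real.pi / 2 * ((k + 1 : ℕ) : ℝ) := by
        push_cast; ring
      rwa [e] at this
  have Bn : ∀ n k : ℕ, ∀ R : Set E2, Body R → Near m η R →
      InjOn (G R) (Icc (-(2 * al m * n) - Real.pi / 2 * k - δ)
        (-(2 * al m * n) - Real.pi / 2 * k + δ)) := by
    intro n k
    induction k with
    | zero =>
      intro R hRb hRn
      have := A n R hRb hRn
      simpa using this
    | succ k ih =>
      intro R hRb hRn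
      have := stepC _ ih R hRb hRn
      have e : -(2 * al m * n) - Real.pi / 2 * k - Real.pi / 2 =
          -(2 * al m * n) - Real.pi / 2 * ((k + 1 : ℕ) : ℝ) := by
        push_cast; ring
      rwa [e] at this
  have Bz : ∀ (n : ℕ) (b : ℤ), ∀ R : Set E2, Body R → Near m η R →
      InjOn (G R) (Icc (-(2 * al m * n) + Real.pi / 2 * b - δ)
        (-(2 * al m * n) + Real.pi / 2 * b + δ)) := by
    intro n b R hRb hRn
    rcases Int.eq_nat_or_neg b with ⟨k, rfl | rfl⟩
    · have := Bp n k R hRb hRn
      simpa using this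
    · have := Bn n k R hRb hRn
      have e : -(2 * al m * n) - Real.pi / 2 * k =
          -(2 * al m * n) + Real.pi / 2 * ((-(k : ℤ) : ℤ) : ℝ) := by
        push_cast; ring
      rwa [e] at this
  -- arithmetic
  obtain ⟨q, hq⟩ : ∃ q : ℕ, m = 2 * q + 1 := ⟨m / 2, by omega⟩
  obtain ⟨n, b, hnb⟩ : ∃ (n : ℕ) (b : ℤ), j = -4 * (n : ℤ) + m * b := by
    refine ⟨(j * (q * (q + 1)) + m * m * |j|).toNat, j * m + 4 * (m * |j|), ?_⟩
    have hpos : 0 ≤ j * ((q : ℤ) * (q + 1)) + m * m * |j| := by
      have h1 : -|j| ≤ j := neg_abs_le j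
      have h2 : (0 : ℤ) ≤ (q : ℤ) * (q + 1) := by positivity
      have h3 : (q : ℤ) * (q + 1) ≤ m * m := by
        rw [hq]; push_cast; nlinarith
      have h4 := mul_le_mul_of_nonneg_right h1 h2
      have h5 := mul_le_mul_of_nonneg_right h3 (abs_nonneg j)
      nlinarith
    rw [Int.toNat_of_nonneg hpos, hq]
    push_cast
    ring
  have hal : al m * m = Real.pi := by
    unfold al
    field_simp
  have key := Bz n b R hRb hRn
  have e : -(2 * al m * n) + Real.pi / 2 * b = j * (al m / 2) := by
    rw [hnb, ← hal]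
    push_cast
    ring
  rwa [e] at key

end Pool.Agent.W2helper11.QD
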