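import Pool.Agent.W2helper5.QD.Stm

/-!
# Project QD, pieces DEC and NEG: sign of the defect
-/

set_option autoImplicit false

namespace Pool.Agent.W2helper11.QD

open MeasureTheory Set Pool.V11275.Quad Pool.Agent.Helper717.Hull1 Pool.Agent.Helper717.Hull2
open Pool.Agent.W2helper5.QD

theorem DEC : P_DEC := by
  intro R hR U U' V V' mU mU' mV mV'
  have := hR.fin
  have h1 : (mu R).real (U' ∩ V') ≤ (mu R).real (U ∩ V') + (mu R).real (U' \ U) := by
    refine le_trans (measureReal_mono (s₂ := (U ∩ V') ∪ (U' \ U)) ?_)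
      (measureReal_union_le _ _)
    intro x hx
    by_cases hxU : x ∈ U
    · exact Or.inl ⟨hxU, hx.2⟩
    · exact Or.inr ⟨hx.1, hxU⟩
  have h2 : (mu R).real (U ∩ (V ∪ V')) = (mu R).real (U ∩ V') + (mu R).real ((V \ V') ∩ U) := by
    rw [← measureReal_union _ ((mV.diff mV').inter mU)]
    · congr 1
      ext x
      simp only [mem_inter_iff, mem_union, mem_sdiff]
      tauto
    · rw [Set.disjoint_left]
      rintro x ⟨_, hx⟩ ⟨⟨_, hx'⟩, _⟩
      exact hx' hx
  have h3 : (mu R).real (U ∩ (V ∪ V')) = (mu R).real (U ∩ V) + (mu R).real ((V' \ V) ∩ U) := by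
    rw [← measureReal_union _ ((mV'.diff mV).inter mU)]
    · congr 1
      ext x
      simp only [mem_inter_iff, mem_union, mem_sdiff]
      tauto
    · rw [Set.disjoint_left]
      rintro x ⟨_, hx⟩ ⟨⟨_, hx'⟩, _⟩
      exact hx' hx
  linarith

theorem NEG : P_NEG := by
  intro hCNU hDEC hB hT1 hT2 m hm5 hodd hbody hG0 hh0 hhp hNEGT hBIS θ hθ0 hθ1
  have hfin := hbody.fin
  set α := al m with hα
  have mpos : (5 : ℝ) ≤ m := by exact_mod_cast hm5
  have hα0 : 0 < α := by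
    rw [hα]; unfold al
    exact div_pos Real.pi_pos (by linarith)
  have hα5 : α ≤ Real.pi / 5 := by
    rw [hα]; unfold al
    exact div_le_div_of_nonneg_left Real.pi_pos.le (by norm_num) mpos
  have hpi := Real.pi_pos
  have hT1' := hT1 α hα0 hα5
  obtain ⟨hx1pos, _, _, _, hxi1⟩ := hT1'.1 θ hθ0.le (by linarith)
  have hxi0 := hT1'.2.1
  have hT2' := (hT2 hT1 α hα0 hα5).2 θ hθ0 hθ1
  have hsin : 0 < Real.sin θ := Real.sin_pos_of_pos_of_lt_pi hθ0 (by linarith)
  have hcos : 0 < Real.cos θ := Real.cos_pos_of_mem_Ioo ⟨by linarith, by linarith⟩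
  have hcosα : 0 < Real.cos (α / 2) := Real.cos_pos_of_mem_Ioo ⟨by linarith, by linarith⟩
  obtain ⟨hbis1, hbis2⟩ := hBIS θ hθ0 (by linarith)
  have hnegt := hNEGT θ hθ0 hθ1
  set x0 := Pool.Agent.W2helper5.QD.sg m * xi α with hx0
  have hx0a : |x0| = xi α := by
    rw [hx0, abs_mul, abs_of_pos hxi0]
    unfold Pool.Agent.W2helper5.QD.sg
    split_ifs <;> simp
  have hx0l : -xi α ≤ x0 := by rw [← hx0a]; exact neg_abs_le x0
  have hx0u : x0 ≤ xi α := by rw [← hx0a]; exact le_abs_self x0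
  have d0 : ∀ p : E2, dot (e 0) p = p 0 := by
    intro p; simp [dot]
  have d1 : ∀ p : E2, dot (e (Real.pi / 2)) p = p 1 := by
    intro p; simp [dot]
  -- the sets
  have hdec := hDEC (P m) hbody {p | x0 ≤ dot (e 0) p} {p | hh (P m) θ ≤ dot (e θ) p}
    {p | 0 ≤ dot (e (Real.pi / 2)) p}
    {p | -(x1 α θ * Real.sin θ) ≤ dot (e (θ + Real.pi / 2)) p}
    (half_meas _ _) (half_meas _ _) (half_meas _ _) (half_meas _ _)
  simp only [d0, d1] at hdec
  have hApp : (mu (P m)).real ({p | x0 ≤ p 0} ∩ {p | 0 ≤ p 1}) = M (P m) / 4 := by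
    unfold G App at hG0
    rw [zero_add, hh0, hhp] at hG0
    simp only [d0, d1] at hG0
    linarith
  -- second set
  have hS2 : (mu (P m)).real (({p : E2 | -(x1 α θ * Real.sin θ) ≤ dot (e (θ + Real.pi / 2)) p} \
      {p : E2 | 0 ≤ p 1}) ∩ {p : E2 | x0 ≤ p 0}) ≤
      (x1 α θ + xi α) ^ 2 * Real.sin θ / (2 * Real.cos θ) := by
    have hc := hCNU (P m) hbody (({p : E2 | -(x1 α θ * Real.sin θ) ≤
      dot (e (θ + Real.pi / 2)) p} \ {p : E2 | 0 ≤ p 1}) ∩ {p : E2 | x0 ≤ p 0})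
      (!₂[x1 α θ, 0]) (-(e 0)) (-(e θ)) (-(e 0)) (-x0)
    have c1 : cr (-(e 0)) (-(e θ)) = Real.sin θ := by simp [cr]
    have c2 : dot (-(e 0)) (-(e 0)) = 1 := by simp [dot]
    have c3 : dot (-(e 0)) (-(e θ)) = Real.cos θ := by simp [dot]
    have c4 : dot (-(e 0)) (!₂[x1 α θ, 0] : E2) = - x1 α θ := by simp [dot]
    rw [c1, c2, c3, c4] at hc
    have hc' := hc hsin one_pos hcos (by
      rintro p ⟨⟨hp1, hp2⟩, hp3⟩ _
      simp only [mem_ofPred_eq, not_le] at hp1 hp2 hp3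
      have e1 : dot (e (θ + Real.pi / 2)) p = - p 0 * Real.sin θ + p 1 * Real.cos θ := by
        simp [dot, Real.cos_add_pi_div_two, Real.sin_add_pi_div_two]; ring
      rw [e1] at hp1
      refine ⟨?_, ?_, ?_⟩
      · simp [cr]; linarith
      · simp [cr]; linarith
      · simp [dot]; exact hp3)
    refine hc'.trans ?_
    have hmax : max 0 (-x0 - -x1 α θ) = x1 α θ - x0 := by
      rw [max_eq_right (by linarith)]; ring
    rw [hmax, mul_one]
    apply div_le_div_of_nonneg_right _ (by positivity)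
    apply mul_le_mul_of_nonneg_right _ hsin.le
    apply pow_le_pow_left₀ (by linarith)
    linarith
  -- third set
  have hS3 : ({p : E2 | 0 ≤ p 1} \ {p : E2 | -(x1 α θ * Real.sin θ) ≤
      dot (e (θ + Real.pi / 2)) p}) ∩ {p : E2 | x0 ≤ p 0} = {p : E2 | 0 ≤ p 1} \
      {p : E2 | -(x1 α θ * Real.sin θ) ≤ dot (e (θ + Real.pi / 2)) p} := by
    apply inter_eq_left.2
    rintro p ⟨hp1, hp2⟩
    simp only [mem_ofPred_eq, not_le] at hp1 hp2 ⊢
    have e1 : dot (e (θ + Real.pi / 2)) p = - p 0 * Real.sin θ + p 1 * Real.cos θ := by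
      simp [dot, Real.cos_add_pi_div_two, Real.sin_add_pi_div_two]; ring
    rw [e1] at hp2
    have h3 : x1 α θ * Real.sin θ < p 0 * Real.sin θ := by
      have := mul_nonneg hp1 hcos.le
      linarith
    have h4 : x1 α θ < p 0 := lt_of_mul_lt_mul_right h3 hsin.le
    linarith
  rw [hS3, hbis2, hApp] at hdec
  have hGθ : G (P m) θ = (mu (P m)).real ({p | hh (P m) θ ≤ dot (e θ) p} ∩
      {p | -(x1 α θ * Real.sin θ) ≤ dot (e (θ + Real.pi / 2)) p}) - M (P m) / 4 := by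
    unfold G App
    rw [hbis1]
  rw [hGθ]
  have hfinal : ZZ α θ * Real.sin θ / (2 * Real.cos (α / 2)) +
      (x1 α θ + xi α) ^ 2 * Real.sin θ / (2 * Real.cos θ) -
      (Real.cos α + x1 α θ) ^ 2 * Real.tan θ / 2 < 0 := by
    have e1 : ZZ α θ * Real.sin θ / (2 * Real.cos (α / 2)) +
      (x1 α θ + xi α) ^ 2 * Real.sin θ / (2 * Real.cos θ) -
      (Real.cos α + x1 α θ) ^ 2 * Real.tan θ / 2 =
      (Real.sin θ / (2 * Real.cos θ)) * (ZZ α θ * Real.cos θ / Real.cos (α / 2) +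
        (x1 α θ + xi α) ^ 2 - (Real.cos α + x1 α θ) ^ 2) := by
      rw [Real.tan_eq_sin_div_cos]
      field_simp
    rw [e1]
    apply mul_neg_of_pos_of_neg
    · positivity
    · linarith
  linarith

end Pool.Agent.W2helper11.QD
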